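import Mathlib
import Pool.Agent.H27.Basis3

set_option autoImplicit false

namespace Pool.Agent.Results.MP_c03fb1_al.Dim3

/-- `f` is a polynomial identity of the `K`-algebra `A` -/
def IsId (K A : Type) [Field K] [NonUnitalNonAssocRing A] [Module K A] [IsScalarTower K A A]
    [SMulCommClass K A A] (f : FreeNonUnitalNonAssocAlgebra K ℕ) : Prop :=
  ∀ r : ℕ → A, FreeNonUnitalNonAssocAlgebra.lift K r f = 0

open H27.Basis3

theorem result (K : Type) [Field K] [Infinite K] :
    ∃ (R : Type) (_ : NonUnitalNonAssocRing R) (_ : Module K R) (_ : IsScalarTower K R R)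
      (_ : SMulCommClass K R R), Module.finrank K R = 3 ∧
      ¬ ∃ S : Set (FreeNonUnitalNonAssocAlgebra K ℕ), S.Finite ∧ (∀ f ∈ S, IsId K R f) ∧
        ∀ g, IsId K R g → ∀ (B : Type) [NonUnitalNonAssocRing B] [Module K B]
          [IsScalarTower K B B] [SMulCommClass K B B], (∀ f ∈ S, IsId K B f) → IsId K B g := by
  refine ⟨Alg (μ3 K), inferInstance, inferInstance, inferInstance, inferInstance,
    (by simp : Module.finrank K (K × K × K) = 3), ?_⟩
  rintro ⟨S, hS, h1, h2⟩
  obtain ⟨k, hk⟩ := ((hS.biUnion fun f _ => f.coeff.support.finite_toSet).image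
    FreeMagma.length).bddAbove
  have e : ∀ {V : Type} [AddCommGroup V] [Module K V] (μ : V →ₗ[K] V →ₗ[K] V) (r : ℕ → V),
      FreeNonUnitalNonAssocAlgebra.lift K (A := Alg μ) r
        (MonoidAlgebra.single (w1 k) 1 - MonoidAlgebra.single (w2 k) 1) =
      (val (fun a b => μ a b) r (w1 k) - val (fun a b => μ a b) r (w2 k) : V) := by
    intro V _ _ μ r
    rw [map_sub, lift_eq, lift_eq]
    simp
    rfl
  have := h2 _ (fun r => (e (μ3 K) r).trans (sub_eq_zero.mpr (w_eq r k))) (Alg (μB K (k + 2)))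
    (fun f hf β => (lift_eq _ β f).trans (test (fun r => (lift_eq _ r f).symm.trans (h1 f hf r))
      (k + 2) fun m hm => (hk ⟨m, Set.mem_biUnion hf hm, rfl⟩).trans (by omega))) (β0 K)
  exact w_ne k (sub_eq_zero.mp ((e (μB K (k + 2)) _).symm.trans this))

end Pool.Agent.Results.MP_c03fb1_al.Dim3
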